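import Pool.Agent.Lib.MP_1c3690_al.Nil.Group

/-!
# MP_1c3690_al: the maximal condition on normal subgroups in small varieties

An extension theorem for every small variety of groups, locally graded or not.
-/

set_option autoImplicit false

open scoped commutatorElement

namespace Pool.Agent.Results.MP_1c3690_al.NilpotentLayers

/-- Let `S` be a set of laws such that fewer than continuum many finitely generated groups satisfy
`S`, up to isomorphism, and let `G` be a finitely generated group which satisfies `S`.  Let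
`1 = N 0, N 1, ..., N k` be normal subgroups of `G` such that for each `i < k` there are a subgroup
`K` of finite index in `G` and a number `c` for which the term `γ_(c+1)(K)` of the lower central
series of `K` satisfies `[γ_(c+1)(K), N (i+1)] ≤ N i`.  Then an ascending chain of normal
subgroups `L n` of `G` becomes constant as soon as the chain of the products `L n N k` becomes
constant. -/
theorem result (S : Set (FreeGroup ℕ))
    (hS : ¬ ∃ (G : Set ℕ → Type) (_ : ∀ s, Group (G s)),
      (∀ s, Group.FG (G s)) ∧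
      (∀ s, ∀ w ∈ S, ∀ f : ℕ → G s, FreeGroup.lift f w = 1) ∧
      (∀ s t, Nonempty (G s ≃* G t) → s = t))
    (G : Type) [Group G] (hG : Group.FG G)
    (hV : ∀ w ∈ S, ∀ f : ℕ → G, FreeGroup.lift f w = 1)
    (k : ℕ) (N : ℕ → Subgroup G) (hN : ∀ i, (N i).Normal) (h0 : N 0 = ⊥)
    (hstep : ∀ i < k, ∃ (K : Subgroup G) (c : ℕ), K.FiniteIndex ∧
      ⁅K.lowerCentralSeries c, N (i + 1)⁆ ≤ N i)
    (L : ℕ → Subgroup G) (hL : ∀ n, (L n).Normal) (hmono : Monotone L)
    (hk : ∃ n, ∀ m, n ≤ m → L m ⊔ N k = L n ⊔ N k) :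
    ∃ n, ∀ m, n ≤ m → L m = L n := by
  obtain ⟨n2, h2⟩ := hk
  have := hN k
  obtain ⟨n1, h1⟩ := SmallVar.Nil.chain_layers hS hG hV N hN h0 k hstep (fun n => L n ⊓ N k)
    (fun n => by have := hL n; infer_instance) (fun i j hij => inf_le_inf_right _ (hmono hij))
    (fun n => inf_le_right)
  refine ⟨max n1 n2, fun m hm => ?_⟩
  have h3 : n1 ≤ m := (le_max_left _ _).trans hm
  have h4 : n2 ≤ m := (le_max_right _ _).trans hm
  refine SmallVar.eq_of_modular _ _ (N k) (hL _) (hmono hm) ?_ ?_
  · have h5 : L m ⊓ N k = L (max n1 n2) ⊓ N k :=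
      (h1 m h3).trans (h1 _ (le_max_left _ _)).symm
    rw [h5]
    exact inf_le_left
  · have h6 : L m ⊔ N k = L (max n1 n2) ⊔ N k :=
      (h2 m h4).trans (h2 _ (le_max_right _ _)).symm
    rw [← h6]
    exact le_sup_left

end Pool.Agent.Results.MP_1c3690_al.NilpotentLayers
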