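import Pool.Agent.Lib.MP_1c3690_al.Prod.Final

/-!
# MP_1c3690_al: the maximal condition on normal subgroups in small product varieties
-/

set_option autoImplicit false

namespace Pool.Agent.Results.MP_1c3690_al.ProductVarieties

/-- The group `G` satisfies the laws in `S`, i.e. belongs to the variety defined by `S`. -/
def Satisfies (S : Set (FreeGroup ℕ)) (G : Type) [Group G] : Prop :=
  ∀ w ∈ S, ∀ f : ℕ → G, FreeGroup.lift f w = 1

/-- The group `G` belongs to the product variety `U W`, where `U` and `W` are the varieties defined
by `SU` and `SW`: it has a normal subgroup `N` in `U` with `G / N` in `W`. -/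
def InProduct (SU SW : Set (FreeGroup ℕ)) (G : Type) [Group G] : Prop :=
  ∃ (N : Subgroup G) (_ : N.Normal), Satisfies SU N ∧ Satisfies SW (G ⧸ N)

/-- Let `U` and `W` be varieties of groups such that `U` contains a nontrivial group, `W` contains
the infinite cyclic group and every finitely generated group in `W` has a soluble subgroup of finite
index.  If the product variety `U W` is small, then every finitely generated group in `U W`
satisfies the maximal condition on normal subgroups. -/
theorem result (SU SW : Set (FreeGroup ℕ))
    (hU : ∃ (H : Type) (_ : Group H), Nontrivial H ∧ Satisfies SU H)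
    (hW : Satisfies SW (Multiplicative ℤ))
    (hWs : ∀ (H : Type) [Group H], Group.FG H → Satisfies SW H →
      ∃ K : Subgroup H, K.FiniteIndex ∧ Group.IsSolvable K)
    (hsmall : ¬ ∃ (G : Set ℕ → Type) (_ : ∀ s, Group (G s)),
      (∀ s, Group.FG (G s)) ∧ (∀ s, InProduct SU SW (G s)) ∧
      (∀ s t, Nonempty (G s ≃* G t) → s = t))
    (G : Type) [Group G] (hG : Group.FG G) (hV : InProduct SU SW G)
    (N : ℕ → Subgroup G) (hN : ∀ n, (N n).Normal) (hmono : Monotone N) :
    ∃ n, ∀ m, n ≤ m → N m = N n :=
  SmallVar.Prod.SmallProd.maxn hsmall hU hW hWs G hG hV N hN hmono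

end Pool.Agent.Results.MP_1c3690_al.ProductVarieties
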